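import Pool.Agent.U695.FF.Law
import Pool.Agent.R939.EI.Tw1
import Pool.Agent.TH115.ID.Gener

/-!
# Members of the family and sequences of independent members
-/

set_option autoImplicit false

namespace Pool.Agent.U695.FF

open Polynomial Pool.Agent.TH115.GD Pool.Agent.R939.EI

section gen

variable {k : Type} [Field k]

theorem onlyTrivial_irr {a b : k[X]} (hb : Irreducible b) : OnlyTrivial a b := by
  intro A hA _ hd _
  obtain ⟨g, hg⟩ := hd
  rcases hb.isUnit_or_isUnit hg with h | h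
  · exact Or.inl (hA.eq_one_of_isUnit h)
  · right
    obtain ⟨c, hc, hcw⟩ := Polynomial.isUnit_iff.1 h
    refine ⟨c, A, hc.ne_zero, ?_⟩
    rw [hg, ← hcw]
    ring

/-- an infinite family of pairs of irreducible polynomials is independent -/
theorem indep_of_irr {ι : Type} {a b : ι → k[X]} (hb : ∀ i, Irreducible (b i))
    (hd : ∀ i, Irreducible (a i ^ 2 - 4 * b i))
    (h1 : ∀ i j, ¬ b i ∣ a j ^ 2 - 4 * b j) (h2 : ∀ i j, i ≠ j → ¬ b i ∣ b j)
    (h3 : ∀ i j, i ≠ j → ¬ (a i ^ 2 - 4 * b i) ∣ (a j ^ 2 - 4 * b j)) : Indep a b := by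
  refine indep_irr (two a b) ?_ ?_
  · rintro ⟨i, s⟩
    cases s
    · exact hb i
    · exact hd i
  · rintro ⟨i, s⟩ ⟨j, t⟩ hne hdv
    have e : s = t → i ≠ j := fun h h' => hne (Prod.ext h' h)
    cases s <;> cases t
    · exact h2 i j (e rfl) hdv
    · exact h1 i j hdv
    · have h4 : b j ∣ a i ^ 2 - 4 * b i := ((hd i).associated_of_dvd (hb j) hdv).symm.dvd
      exact h1 j i h4
    · exact h3 i j (e rfl) hdv

end gen

section exa

variable {k : Type} [Field k]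

/-- the polynomials `b` of the tower -/
noncomputable def bT (ℓ : ℕ) (β : k) (j : ℕ) : k[X] := X ^ ℓ ^ j - C β

theorem dT_eq (ℓ : ℕ) (β c : k) (hc : c ^ 2 = -8 * β) (j : ℕ) :
    (C c) ^ 2 - 4 * bT ℓ β j = C (-4) * bT ℓ (-β) j := by
  have e : (C c : k[X]) ^ 2 = -8 * C β := by
    rw [← C_pow, hc, C_mul, C_neg, map_ofNat]
  unfold bT
  rw [e]
  simp only [map_neg, map_ofNat]
  ring

theorem irr_bT {ℓ : ℕ} (hℓ : ℓ.Prime) (hℓ2 : ℓ ≠ 2) {β : k} (hβ : ∀ y : k, y ^ ℓ ≠ β) (j : ℕ) :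
    Irreducible (bT ℓ β j) :=
  X_pow_sub_C_irreducible_of_prime_pow hℓ hℓ2 j hβ

theorem deg_bT (ℓ : ℕ) (hℓ : ℓ.Prime) (β : k) (j : ℕ) : (bT ℓ β j).natDegree = ℓ ^ j :=
  natDegree_X_pow_sub_C

theorem neg_not_pow {ℓ : ℕ} (hℓ : ℓ.Prime) (hℓ2 : ℓ ≠ 2) {β : k} (hβ : ∀ y : k, y ^ ℓ ≠ β)
    (y : k) : y ^ ℓ ≠ -β := by
  intro h
  apply hβ (-y)
  rw [(hℓ.odd_of_ne_two hℓ2).neg_pow, h, neg_neg]

/-- the sequence is independent -/
theorem indep_bT (h2 : (2 : k) ≠ 0) {ℓ : ℕ} (hℓ : ℓ.Prime) (hℓ2 : ℓ ≠ 2) {β c : k}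
    (hβ : ∀ y : k, y ^ ℓ ≠ β) (hc : c ^ 2 = -8 * β) (hc0 : c ≠ 0) :
    (∀ j, Irreducible (bT ℓ β j)) ∧ (∀ j, Irreducible ((C c) ^ 2 - 4 * bT ℓ β j)) ∧
      Indep (fun _ : ℕ => (C c : k[X])) (bT ℓ β) := by
  have h4 : (-4 : k) ≠ 0 := by
    have : (-4 : k) = -(2 * 2) := by norm_num
    rw [this]
    exact neg_ne_zero.2 (mul_ne_zero h2 h2)
  have hu : IsUnit (C (-4) : k[X]) := isUnit_C.2 (isUnit_iff_ne_zero.2 h4)
  have hb := irr_bT hℓ hℓ2 hβ
  have hb' := irr_bT hℓ hℓ2 (neg_not_pow hℓ hℓ2 hβ)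
  have hd : ∀ j, Irreducible ((C c) ^ 2 - 4 * bT ℓ β j) := by
    intro j
    rw [dT_eq ℓ β c hc]
    exact (irreducible_isUnit_mul hu).2 (hb' j)
  have hdeg : ∀ i j : ℕ, i ≠ j → ∀ u v : k, ¬ bT ℓ u i ∣ bT ℓ v j ∨ ¬ Irreducible (bT ℓ u i) ∨
      ¬ Irreducible (bT ℓ v j) := by
    intro i j hij u v
    by_contra hcon
    push Not at hcon
    obtain ⟨g1, g2, g3⟩ := hcon
    have g4 := natDegree_eq_of_degree_eq
      (degree_eq_degree_of_associated (g2.associated_of_dvd g3 g1))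
    rw [deg_bT ℓ hℓ, deg_bT ℓ hℓ] at g4
    exact hij (Nat.pow_right_injective hℓ.two_le g4)
  refine ⟨hb, hd, indep_of_irr hb hd ?_ ?_ ?_⟩
  · intro i j hdv
    rw [dT_eq ℓ β c hc] at hdv
    have hdv' : bT ℓ β i ∣ bT ℓ (-β) j := (hu.dvd_mul_left).1 hdv
    by_cases hij : i = j
    · subst hij
      have h5 : bT ℓ β i ∣ bT ℓ (-β) i - bT ℓ β i := dvd_sub hdv' dvd_rfl
      have h6 : bT ℓ (-β) i - bT ℓ β i = C (2 * β) := by
        unfold bT
        rw [map_neg, map_mul, map_ofNat]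
        ring
      rw [h6] at h5
      have h7 : β ≠ 0 := by
        rintro rfl
        rw [mul_zero] at hc
        exact hc0 (pow_eq_zero_iff two_ne_zero |>.1 hc)
      exact (hb i).not_isUnit (isUnit_of_dvd_unit h5
        (isUnit_C.2 (isUnit_iff_ne_zero.2 (mul_ne_zero h2 h7))))
    · rcases hdeg i j hij β (-β) with h | h | h
      · exact h hdv'
      · exact h (hb i)
      · exact h (hb' j)
  · intro i j hij hdv
    rcases hdeg i j hij β β with h | h | h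
    · exact h hdv
    · exact h (hb i)
    · exact h (hb j)
  · intro i j hij hdv
    rw [dT_eq ℓ β c hc, dT_eq ℓ β c hc] at hdv
    have hdv' : bT ℓ (-β) i ∣ bT ℓ (-β) j := (hu.dvd_mul_left).1 ((hu.mul_left_dvd).1 hdv)
    rcases hdeg i j hij (-β) (-β) with h | h | h
    · exact h hdv'
    · exact h (hb' i)
    · exact h (hb' j)

/-- the existence of the constants -/
theorem exists_beta [Fintype k] (hk : ringChar k ≠ 2) {ℓ : ℕ} (hℓ : ℓ.Prime) (hℓ2 : ℓ ≠ 2)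
    (hd : ℓ ∣ Fintype.card k - 1) :
    ∃ β c : k, c ≠ 0 ∧ c ^ 2 = -8 * β ∧ ∀ y : k, y ^ ℓ ≠ β := by
  classical
  have h2 : (2 : k) ≠ 0 := Ring.two_ne_zero hk
  have : Fact ℓ.Prime := ⟨hℓ⟩
  -- a unit which is not a power
  have hcard : ℓ ∣ Fintype.card kˣ := by
    rw [Fintype.card_units]
    exact hd
  obtain ⟨z, hz⟩ := exists_prime_orderOf_dvd_card ℓ hcard
  have hns : ¬ Function.Surjective (fun x : kˣ => x ^ ℓ) := by
    intro hs
    have hi := (Finite.injective_iff_surjective.2 hs) (a₁ := z) (a₂ := 1) (by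
      show z ^ ℓ = 1 ^ ℓ
      rw [one_pow, ← hz, pow_orderOf_eq_one])
    rw [hi, orderOf_one] at hz
    exact hℓ.one_lt.ne hz
  have hns' : ∃ u : kˣ, ∀ x : kˣ, x ^ ℓ ≠ u := by
    by_contra h
    push Not at h
    exact hns h
  obtain ⟨u, hu⟩ := hns'
  have hu' : ∀ y : k, y ^ ℓ ≠ (u : k) := by
    intro y hy
    have hy0 : y ≠ 0 := by
      rintro rfl
      rw [zero_pow hℓ.ne_zero] at hy
      exact u.ne_zero hy.symm
    apply hu (Units.mk0 y hy0)
    ext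
    simpa using hy
  have h8 : (-8 : k) ≠ 0 := by
    have : (-8 : k) = -(2 * 2 * 2) := by norm_num
    rw [this]
    exact neg_ne_zero.2 (mul_ne_zero (mul_ne_zero h2 h2) h2)
  have hv0 : (-8 : k) * u ≠ 0 := mul_ne_zero h8 u.ne_zero
  by_cases hsq : IsSquare ((-8 : k) * u)
  · obtain ⟨c, hc⟩ := hsq
    refine ⟨u, c, ?_, ?_, hu'⟩
    · rintro rfl
      rw [mul_zero] at hc
      exact hv0 hc
    · rw [hc, pow_two]
  · obtain ⟨ν, hν⟩ := FiniteField.exists_nonsquare hk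
    have hν0 : ν ≠ 0 := by
      rintro rfl
      exact hν ⟨0, by simp⟩
    have hνℓ0 : ν ^ ℓ ≠ 0 := pow_ne_zero _ hν0
    have h5 : quadraticChar k ((-8 : k) * u) = -1 := by
      rcases quadraticChar_dichotomy hv0 with h | h
      · exact absurd ((quadraticChar_one_iff_isSquare hv0).1 h) hsq
      · exact h
    have h6 : quadraticChar k ν = -1 := by
      rcases quadraticChar_dichotomy hν0 with h | h
      · exact absurd ((quadraticChar_one_iff_isSquare hν0).1 h) hν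
      · exact h
    have h7 : quadraticChar k ((-8 : k) * (u * ν ^ ℓ)) = 1 := by
      rw [← mul_assoc, map_mul, h5, map_pow, h6, (hℓ.odd_of_ne_two hℓ2).neg_one_pow]
      norm_num
    have h9 : (-8 : k) * (u * ν ^ ℓ) ≠ 0 := mul_ne_zero h8 (mul_ne_zero u.ne_zero hνℓ0)
    obtain ⟨c, hc⟩ := (quadraticChar_one_iff_isSquare h9).1 h7
    refine ⟨u * ν ^ ℓ, c, ?_, ?_, ?_⟩
    · rintro rfl
      rw [mul_zero] at hc
      exact h9 hc
    · rw [hc, pow_two]
    · intro y hy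
      apply hu' (y / ν)
      rw [div_pow, hy]
      field_simp

end exa

end Pool.Agent.U695.FF
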