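import Pool.Agent.U695.FF.Sym
import Pool.Agent.U695.JT.Prob

/-!
# The joint law for several pairs of polynomials
-/

set_option autoImplicit false

namespace Pool.Agent.U695.FF

theorem card_one : Nat.card {w : Bool → Bool // (w false = true ∧ w true = true)} = 1 := by
  rw [Nat.card_eq_fintype_card]
  decide

theorem card_three : Nat.card {w : Bool → Bool // ¬ (w false = true ∧ w true = true)} = 3 := by
  rw [Nat.card_eq_fintype_card]
  decide

theorem card_pat {n : ℕ} (A : Finset (Fin n)) :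
    Nat.card {v : Fin n × Bool → Bool //
      ∀ i, (i ∈ A ↔ (v (i, false) = true ∧ v (i, true) = true))} =
    ∏ i : Fin n, if i ∈ A then 1 else 3 := by
  let e1 : {v : Fin n × Bool → Bool //
      ∀ i, (i ∈ A ↔ (v (i, false) = true ∧ v (i, true) = true))} ≃
      {g : Fin n → Bool → Bool // ∀ i, (i ∈ A ↔ (g i false = true ∧ g i true = true))} :=
    (Equiv.curry (Fin n) Bool Bool).subtypeEquiv (fun v => Iff.rfl)
  let e2 : {g : Fin n → Bool → Bool // ∀ i, (i ∈ A ↔ (g i false = true ∧ g i true = true))} ≃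
      ∀ i : Fin n, {w : Bool → Bool // (i ∈ A ↔ (w false = true ∧ w true = true))} :=
    Equiv.subtypePiEquivPi (p := fun (i : Fin n) (w : Bool → Bool) =>
      (i ∈ A ↔ (w false = true ∧ w true = true)))
  have e := e1.trans e2
  rw [Nat.card_congr e, Nat.card_pi]
  refine Finset.prod_congr rfl fun i _ => ?_
  by_cases hi : i ∈ A
  · rw [if_pos hi, ← card_one]
    refine Nat.card_congr (Equiv.subtypeEquivRight fun w => ?_)
    simp [hi]
  · rw [if_neg hi, ← card_three]
    refine Nat.card_congr (Equiv.subtypeEquivRight fun w => ?_)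
    simp [hi]

open scoped Classical
open Polynomial Finset Filter Topology
open Pool.Agent.U695.JT

variable {k : Type} [Field k]

/-- the two polynomials of the curve `y ^ 2 = x (x ^ 2 + a x + b)` -/
noncomputable def two {ι : Type} (a b : ι → k[X]) (j : ι × Bool) : k[X] :=
  if j.2 then a j.1 ^ 2 - 4 * b j.1 else b j.1

/-- the polynomials are independent modulo constants and squares -/
def Indep {ι : Type} (a b : ι → k[X]) : Prop :=
  ∀ U : Finset (ι × Bool), U.Nonempty → ∀ (c : k) (h : k[X]), ∏ j ∈ U, two a b j ≠ C c * h ^ 2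

/-- `b` and `a ^ 2 - 4 b` are not squares modulo `D` -/
def Ine (a b D : k[X]) : Prop := NonSq D b ∧ NonSq D (a ^ 2 - 4 * b)

variable [Fintype k]

theorem joint (hk : ringChar k ≠ 2) {n : ℕ} (a b : Fin n → k[X]) (hI : Indep a b)
    (A : Finset (Fin n)) :
    Tendsto (fun N : ℕ => (((PR k N).filter fun D => ∀ i, (i ∈ A ↔ Ine (a i) (b i) D)).card : ℝ) /
      (PR k N).card) atTop (𝓝 (wt (fun _ => (1 / 4 : ℝ)) A)) := by
  have h := law (J := Fin n × Bool) hk (two a b) hI
    (fun v => ∀ i, (i ∈ A ↔ (v (i, false) = true ∧ v (i, true) = true)))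
  have e : (Nat.card {v : Fin n × Bool → Bool //
      ∀ i, (i ∈ A ↔ (v (i, false) = true ∧ v (i, true) = true))} : ℝ) /
      2 ^ Fintype.card (Fin n × Bool) = wt (fun _ => (1 / 4 : ℝ)) A := by
    rw [card_pat, Fintype.card_prod, Fintype.card_fin, Fintype.card_bool, mul_comm n 2, pow_mul]
    have e2 : ((2 : ℝ) ^ 2) ^ n = ∏ _i : Fin n, (4 : ℝ) := by
      rw [Finset.prod_const, card_univ, Fintype.card_fin]
      norm_num
    rw [e2]
    push_cast
    rw [← Finset.prod_div_distrib, wt]
    refine Finset.prod_congr rfl fun i _ => ?_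
    split_ifs <;> norm_num
  rw [e] at h
  refine h.congr fun N => ?_
  congr 3
  ext D
  simp only [mem_filter]
  refine and_congr_right fun _ => forall_congr' fun i => ?_
  have h1 : (sg (two a b) D (i, false) = true) ↔ NonSq D (b i) := by
    simp [sg, two]
  have h2 : (sg (two a b) D (i, true) = true) ↔ NonSq D (a i ^ 2 - 4 * b i) := by
    simp [sg, two]
  rw [h1, h2]
  rfl

theorem pat (hk : ringChar k ≠ 2) (a b : ℕ → k[X]) (hI : Indep a b) :
    Pat (PR k) (fun i D => Ine (a i) (b i) D) (fun _ => (1 / 4 : ℝ)) := by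
  intro n A
  refine joint hk (fun i : Fin n => a i) (fun i : Fin n => b i) ?_ A
  intro U hU c h
  have h1 := hI (U.map ⟨fun j => ((j.1 : ℕ), j.2), fun x y h => by
    have h3 := Prod.ext_iff.1 h
    exact Prod.ext (Fin.ext h3.1) h3.2⟩) (hU.map) c h
  rw [Finset.prod_map] at h1
  exact h1

omit [Fintype k] in
/-- different irreducible polynomials are independent -/
theorem indep_irr {J : Type} (p : J → k[X]) (hp : ∀ j, Irreducible (p j))
    (hne : ∀ i j, i ≠ j → ¬ p i ∣ p j) (U : Finset J) (hU : U.Nonempty) (c : k) (h : k[X]) :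
    ∏ j ∈ U, p j ≠ C c * h ^ 2 := by
  intro e
  obtain ⟨i, hi⟩ := hU
  have h0 : ∏ j ∈ U, p j ≠ 0 := Finset.prod_ne_zero_iff.2 fun j _ => (hp j).ne_zero
  have hc : c ≠ 0 := by
    rintro rfl
    exact h0 (by rw [e]; simp)
  have hu : IsUnit (C c : k[X]) := isUnit_C.2 (isUnit_iff_ne_zero.2 hc)
  have h1 : p i ∣ C c * h ^ 2 := by
    rw [← e]
    exact Finset.dvd_prod_of_mem p hi
  have h2 : p i ∣ h := (hp i).prime.dvd_of_dvd_pow ((hu.dvd_mul_left).1 h1)
  obtain ⟨g, rfl⟩ := h2
  rw [← Finset.mul_prod_erase U p hi] at e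
  have h3 : ∏ j ∈ U.erase i, p j = p i * (C c * g ^ 2) := by
    apply mul_left_cancel₀ (hp i).ne_zero
    rw [e]
    ring
  obtain ⟨j, hj, hd⟩ := ((hp i).prime.dvd_finsetProd_iff _).1
    (by rw [h3]; exact dvd_mul_right _ _ : p i ∣ ∏ j ∈ U.erase i, p j)
  exact hne i j (Finset.ne_of_mem_erase hj).symm hd

end Pool.Agent.U695.FF
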