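import Pool.Agent.R939.FF.Cnt

/-!
# The joint law of the quadratic residue symbols of several polynomials modulo the primes of `k[t]`
-/

set_option autoImplicit false
set_option linter.unusedSectionVars false

open scoped Classical

namespace Pool.Agent.U695.FF

open Polynomial Finset Filter Topology
open Pool.Agent.R939.FF (sum_bound card_zeros card_small)

/-- `f` is not a square modulo `D` -/
def NonSq {k : Type} [Field k] (D f : k[X]) : Prop := ∀ r : k[X], ¬ D ∣ f - r ^ 2

/-- the signs -/
noncomputable def sg {k : Type} [Field k] {J : Type} (f : J → k[X]) (D : k[X]) : J → Bool :=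
  fun j => decide (NonSq D (f j))

section

variable {k : Type} [Field k] [Fintype k]

theorem finite_pr (n : ℕ) : {D : k[X] | D.Monic ∧ Irreducible D ∧ D.natDegree = n}.Finite := by
  have : Finite (degreeLT k (n + 1)) := Finite.of_equiv _ (degreeLTEquiv k (n + 1)).toEquiv.symm
  have h : ((degreeLT k (n + 1) : Submodule k k[X]) : Set k[X]).Finite := Set.toFinite _
  refine h.subset ?_
  rintro D ⟨-, -, h3⟩
  rw [SetLike.mem_coe, mem_degreeLT]
  refine lt_of_le_of_lt degree_le_natDegree ?_
  rw [h3]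
  exact_mod_cast Nat.lt_succ_self n

/-- the monic irreducible polynomials of degree `n` -/
noncomputable def PR (k : Type) [Field k] [Fintype k] (n : ℕ) : Finset k[X] :=
  (finite_pr (k := k) n).toFinset

theorem mem_PR {n : ℕ} {D : k[X]} : D ∈ PR k n ↔ D.Monic ∧ Irreducible D ∧ D.natDegree = n := by
  rw [PR, Set.Finite.mem_toFinset]
  rfl

section ext

variable {E : Type} [Field E] [Fintype E] [Algebra k E] {n : ℕ}

theorem fiber (hn : n ≠ 0) (hfr : Module.finrank k E = n) {D : k[X]} (hD : D ∈ PR k n) :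
    (univ.filter fun x : E => minpoly k x = D).card = n := by
  obtain ⟨h1, h2, h3⟩ := mem_PR.1 hD
  have : FiniteDimensional k E := Module.Finite.of_finite
  have hcard : Fintype.card E = Nat.card k ^ n := by
    rw [Nat.card_eq_fintype_card, Module.card_eq_pow_finrank (K := k) (V := E), hfr]
  have hdv : D ∣ X ^ (Nat.card k) ^ n - X :=
    (h2.natDegree_dvd_iff_dvd_X_pow_card_pow_sub_X).1 (by rw [h3])
  have hspl : (D.map (algebraMap k E)).Splits := by
    have h4 : (X ^ (Nat.card k) ^ n - X : k[X]).IsSplittingField k E := by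
      rw [← hcard]
      exact FiniteField.isSplittingField_sub E k
    refine Splits.of_dvd h4.splits ?_ (_root_.map_dvd (mapRingHom (algebraMap k E)) hdv)
    rw [Ne, Polynomial.map_eq_zero]
    exact FiniteField.X_pow_card_pow_sub_X_ne_zero _ hn Finite.one_lt_card
  have hsep : D.Separable := PerfectField.separable_of_irreducible h2
  have h5 := card_rootSet_eq_natDegree hsep hspl
  rw [h3] at h5
  have h6 : (univ.filter fun x : E => minpoly k x = D) = (D.rootSet E).toFinset := by
    ext x
    rw [mem_filter, Set.mem_toFinset, mem_rootSet]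
    constructor
    · rintro ⟨-, h⟩
      exact ⟨h1.ne_zero, by rw [← h]; exact minpoly.aeval _ _⟩
    · rintro ⟨-, h⟩
      exact ⟨mem_univ _, (minpoly.eq_of_irreducible_of_monic h2 h h1).symm⟩
  rw [h6, Set.toFinset_card]
  convert h5

theorem count_PR (hn : n ≠ 0) (hfr : Module.finrank k E = n) (Q : k[X] → Prop) :
    (univ.filter fun x : E => (minpoly k x).natDegree = n ∧ Q (minpoly k x)).card =
      n * ((PR k n).filter Q).card := by
  have : FiniteDimensional k E := Module.Finite.of_finite
  rw [Finset.card_eq_sum_card_fiberwise (f := fun x : E => minpoly k x) (t := (PR k n).filter Q)]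
  · rw [Finset.sum_congr rfl (g := fun _ => n), sum_const, smul_eq_mul, mul_comm]
    intro D hD
    have h0 := mem_filter.1 hD
    have h1 : ((univ.filter fun x : E => (minpoly k x).natDegree = n ∧
        Q (minpoly k x)).filter fun x => minpoly k x = D) =
        univ.filter fun x : E => minpoly k x = D := by
      ext x
      simp only [mem_filter, mem_univ, true_and]
      constructor
      · rintro ⟨-, h⟩
        exact h
      · intro h
        rw [h]
        exact ⟨⟨(mem_PR.1 h0.1).2.2, h0.2⟩, rfl⟩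
    rw [h1, fiber hn hfr h0.1]
  · intro x hx
    rw [mem_coe, mem_filter] at hx
    rw [mem_coe, mem_filter]
    have hint : IsIntegral k x := Algebra.IsIntegral.isIntegral x
    exact ⟨mem_PR.2 ⟨minpoly.monic hint, minpoly.irreducible hint, hx.2.1⟩, hx.2.2⟩

theorem nonSq_iff (hfr : Module.finrank k E = n) {x : E} (hx : (minpoly k x).natDegree = n)
    {f : k[X]} (h0 : aeval x f ≠ 0) :
    NonSq (minpoly k x) f ↔ quadraticChar E (aeval x f) = -1 := by
  have : FiniteDimensional k E := Module.Finite.of_finite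
  constructor
  · intro h
    rcases quadraticChar_dichotomy h0 with h1 | h1
    · exfalso
      obtain ⟨y, hy⟩ := (quadraticChar_one_iff_isSquare h0).1 h1
      have h2 : IntermediateField.adjoin k {x} = ⊤ :=
        (Field.primitive_element_iff_minpoly_natDegree_eq k x).2 (hx.trans hfr.symm)
      have h3 : y ∈ Algebra.adjoin k {x} := by
        rw [← IntermediateField.adjoin_simple_toSubalgebra_of_isAlgebraic
          (Algebra.IsAlgebraic.isAlgebraic x), h2]
        exact IntermediateField.mem_top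
      rw [Algebra.adjoin_singleton_eq_range_aeval] at h3
      obtain ⟨r, hr⟩ := h3
      refine h r (minpoly.dvd _ _ ?_)
      have hr' : aeval x r = y := hr
      rw [map_sub, map_pow, hr', hy, pow_two, sub_self]
    · exact h1
  · intro hw r hdv
    have h5 : aeval x (f - r ^ 2) = 0 := (minpoly.dvd_iff).1 hdv
    rw [map_sub, map_pow, sub_eq_zero] at h5
    rw [h5] at hw
    by_cases h0 : aeval x r = 0
    · rw [h0, zero_pow two_ne_zero, MulChar.map_zero] at hw
      norm_num at hw
    · rw [quadraticChar_sq_one' h0] at hw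
      norm_num at hw

variable {J : Type} [Fintype J]

/-- the sign -/
noncomputable def sn (b : Bool) : ℝ := if b then -1 else 1

/-- the values of the quadratic character -/
noncomputable def qc (f : k[X]) (x : E) : ℝ := ((quadraticChar E (aeval x f) : ℤ) : ℝ)

/-- the smooth indicator of the pattern `T` -/
noncomputable def ind (f : J → k[X]) (T : J → Bool) (x : E) : ℝ :=
  ∏ j, (1 + sn (T j) * qc (f j) x) / 2

theorem qc_cases (f : k[X]) (x : E) : qc f x = 0 ∨ qc f x = 1 ∨ qc f x = -1 := by
  unfold qc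
  by_cases h : aeval x f = 0
  · left
    rw [h, MulChar.map_zero]
    norm_num
  · rcases quadraticChar_dichotomy h with h | h
    · right; left
      rw [h]; norm_num
    · right; right
      rw [h]; norm_num

theorem factor_mem (b : Bool) (f : k[X]) (x : E) :
    0 ≤ (1 + sn b * qc f x) / 2 ∧ (1 + sn b * qc f x) / 2 ≤ 1 := by
  unfold sn
  rcases qc_cases f x with h | h | h <;> rw [h] <;> cases b <;> norm_num

theorem ind_mem (f : J → k[X]) (T : J → Bool) (x : E) : 0 ≤ ind f T x ∧ ind f T x ≤ 1 :=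
  ⟨prod_nonneg fun j _ => (factor_mem _ _ _).1,
    prod_le_one (fun j _ => (factor_mem _ _ _).1) fun j _ => (factor_mem _ _ _).2⟩

theorem ind_eq (hfr : Module.finrank k E = n) (f : J → k[X]) (T : J → Bool) {x : E}
    (hx : (minpoly k x).natDegree = n) (h0 : ∀ j, aeval x (f j) ≠ 0) :
    ind f T x = if sg f (minpoly k x) = T then 1 else 0 := by
  have h1 : ∀ j, (1 + sn (T j) * qc (f j) x) / 2 = if sg f (minpoly k x) j = T j then 1 else 0 := by
    intro j
    have h2 := nonSq_iff hfr hx (h0 j)
    unfold sg sn qc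
    rcases quadraticChar_dichotomy (h0 j) with h | h
    · have h3 : ¬ NonSq (minpoly k x) (f j) := by
        rw [h2, h]
        norm_num
      rw [h, decide_eq_false h3]
      cases T j <;> norm_num
    · have h3 : NonSq (minpoly k x) (f j) := h2.2 h
      rw [h, decide_eq_true h3]
      cases T j <;> norm_num
  unfold ind
  rw [Finset.prod_congr rfl fun j _ => h1 j]
  by_cases h : sg f (minpoly k x) = T
  · rw [if_pos h]
    exact Finset.prod_eq_one fun j _ => if_pos (congrFun h j)
  · rw [if_neg h]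
    obtain ⟨j, hj⟩ : ∃ j, sg f (minpoly k x) j ≠ T j := by
      by_contra hc
      push Not at hc
      exact h (funext hc)
    exact Finset.prod_eq_zero (mem_univ j) (if_neg hj)

/-- the comparison of the indicators -/
theorem ind_near (hfr : Module.finrank k E = n) (f : J → k[X]) (T : J → Bool) (x : E) :
    |(if (minpoly k x).natDegree = n ∧ sg f (minpoly k x) = T then (1 : ℝ) else 0) - ind f T x| ≤
      (if (minpoly k x).natDegree ≠ n then 1 else 0) +
        ∑ j, if aeval x (f j) = 0 then (1 : ℝ) else 0 := by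
  have hm := ind_mem f T x
  have hs : 0 ≤ ∑ j, if aeval x (f j) = 0 then (1 : ℝ) else 0 :=
    sum_nonneg fun j _ => by split_ifs <;> norm_num
  have hb : |(if (minpoly k x).natDegree = n ∧ sg f (minpoly k x) = T then (1 : ℝ) else 0) -
      ind f T x| ≤ 1 := by
    rw [abs_le]
    split_ifs <;> constructor <;> linarith [hm.1, hm.2]
  by_cases hx : (minpoly k x).natDegree = n
  · by_cases h0 : ∀ j, aeval x (f j) ≠ 0
    · rw [ind_eq hfr f T hx h0]
      have e : (if (minpoly k x).natDegree = n ∧ sg f (minpoly k x) = T then (1 : ℝ) else 0) =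
          if sg f (minpoly k x) = T then 1 else 0 := by
        by_cases h : sg f (minpoly k x) = T
        · rw [if_pos h, if_pos ⟨hx, h⟩]
        · rw [if_neg h, if_neg fun h' => h h'.2]
      rw [e, sub_self, abs_zero]
      have : (0 : ℝ) ≤ if (minpoly k x).natDegree ≠ n then 1 else 0 := by
        split_ifs <;> norm_num
      linarith
    · push Not at h0
      obtain ⟨j, hj⟩ := h0
      have h1 : (1 : ℝ) ≤ ∑ j, if aeval x (f j) = 0 then (1 : ℝ) else 0 := by
        refine le_trans ?_ (single_le_sum (f := fun j => if aeval x (f j) = 0 then (1 : ℝ) else 0)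
          (fun j _ => by split_ifs <;> norm_num) (mem_univ j))
        rw [if_pos hj]
      have : (0 : ℝ) ≤ if (minpoly k x).natDegree ≠ n then 1 else 0 := by
        split_ifs <;> norm_num
      linarith
  · rw [if_pos hx]
    linarith

/-- the sum of the smooth indicators -/
theorem sum_ind (hk : ringChar k ≠ 2) (f : J → k[X]) (T : J → Bool)
    (hf : ∀ U : Finset J, U.Nonempty → ∀ (c : k) (h : k[X]), ∏ j ∈ U, f j ≠ C c * h ^ 2) :
    |∑ x : E, ind f T x - (Fintype.card E : ℝ) / 2 ^ Fintype.card J| ≤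
      5 * ((∑ j, (f j).natDegree : ℕ) : ℝ) * Real.sqrt (Fintype.card E) := by
  have hf0 : ∀ j, f j ≠ 0 := by
    intro j h
    exact hf {j} ⟨j, mem_singleton_self j⟩ 0 0 (by rw [prod_singleton, h]; simp)
  set m := Fintype.card J with hm
  have h2 : ∀ x : E, ind f T x = (1 / 2 ^ m) *
      ∑ U : Finset J, (∏ j ∈ U, sn (T j)) * qc (∏ j ∈ U, f j) x := by
    intro x
    unfold ind
    rw [Finset.prod_div_distrib, prod_const, card_univ, ← hm, div_eq_mul_inv, mul_comm, one_div]
    congr 1
    rw [Finset.prod_one_add]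
    rw [powerset_univ]
    refine Finset.sum_congr rfl fun U _ => ?_
    rw [Finset.prod_mul_distrib]
    congr 1
    unfold qc
    rw [map_prod, map_prod]
    push_cast
    rfl
  have h3 : ∑ x : E, ind f T x = (1 / 2 ^ m) *
      ∑ U : Finset J, (∏ j ∈ U, sn (T j)) * ∑ x : E, qc (∏ j ∈ U, f j) x := by
    rw [Finset.sum_congr rfl fun x _ => h2 x, ← Finset.mul_sum, Finset.sum_comm]
    congr 1
    refine Finset.sum_congr rfl fun U _ => ?_
    rw [Finset.mul_sum]
  have h4 : ∑ U : Finset J, (∏ j ∈ U, sn (T j)) * ∑ x : E, qc (∏ j ∈ U, f j) x =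
      Fintype.card E + ∑ U ∈ (univ : Finset (Finset J)).erase ∅,
        (∏ j ∈ U, sn (T j)) * ∑ x : E, qc (∏ j ∈ U, f j) x := by
    rw [← Finset.add_sum_erase _ _ (mem_univ (∅ : Finset J))]
    congr 1
    rw [prod_empty, prod_empty, one_mul]
    have h5 : ∀ x : E, qc (1 : k[X]) x = 1 := by
      intro x
      unfold qc
      rw [map_one, MulChar.map_one]
      norm_num
    rw [Finset.sum_congr rfl fun x _ => h5 x, sum_const, card_univ, nsmul_eq_mul, mul_one]
  have h5 : ∑ x : E, ind f T x - (Fintype.card E : ℝ) / 2 ^ m = (1 / 2 ^ m) *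
      ∑ U ∈ (univ : Finset (Finset J)).erase ∅,
        (∏ j ∈ U, sn (T j)) * ∑ x : E, qc (∏ j ∈ U, f j) x := by
    rw [h3, h4]
    ring
  rw [h5, abs_mul, abs_of_nonneg (by positivity : (0 : ℝ) ≤ 1 / 2 ^ m)]
  set d := ∑ j, (f j).natDegree with hd
  have h6 : |∑ U ∈ (univ : Finset (Finset J)).erase ∅,
      (∏ j ∈ U, sn (T j)) * ∑ x : E, qc (∏ j ∈ U, f j) x| ≤
      ∑ U ∈ (univ : Finset (Finset J)).erase ∅, 5 * (d : ℝ) * Real.sqrt (Fintype.card E) := by
    refine (Finset.abs_sum_le_sum_abs _ _).trans (Finset.sum_le_sum fun U hU => ?_)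
    have hU' : U.Nonempty := nonempty_iff_ne_empty.2 (ne_of_mem_erase hU)
    rw [abs_mul, Finset.abs_prod]
    have h7 : ∏ j ∈ U, |sn (T j)| = 1 := by
      refine Finset.prod_eq_one fun j _ => ?_
      unfold sn
      cases T j <;> norm_num
    rw [h7, one_mul]
    have h8 := sum_bound (E := E) hk (hf U hU')
    refine h8.trans ?_
    refine mul_le_mul_of_nonneg_right ?_ (Real.sqrt_nonneg _)
    refine mul_le_mul_of_nonneg_left ?_ (by norm_num)
    rw [natDegree_prod _ _ fun j _ => hf0 j]
    exact_mod_cast Finset.sum_le_sum_of_subset (subset_univ U)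
  have h9 : ((univ : Finset (Finset J)).erase ∅).card ≤ 2 ^ m := by
    refine (card_erase_le).trans ?_
    rw [card_univ, Fintype.card_finset]
  have h10 : (0 : ℝ) ≤ 5 * (d : ℝ) * Real.sqrt (Fintype.card E) := by positivity
  rw [sum_const, nsmul_eq_mul] at h6
  have h11 : (((univ : Finset (Finset J)).erase ∅).card : ℝ) ≤ 2 ^ m := by exact_mod_cast h9
  calc (1 / 2 ^ m) * |∑ U ∈ (univ : Finset (Finset J)).erase ∅,
        (∏ j ∈ U, sn (T j)) * ∑ x : E, qc (∏ j ∈ U, f j) x|
      ≤ (1 / 2 ^ m) * ((2 : ℝ) ^ m * (5 * (d : ℝ) * Real.sqrt (Fintype.card E))) := by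
        refine mul_le_mul_of_nonneg_left (h6.trans ?_) (by positivity)
        exact mul_le_mul_of_nonneg_right h11 h10
    _ = 5 * (d : ℝ) * Real.sqrt (Fintype.card E) := by
        field_simp

/-- the number of the primes with a given pattern -/
theorem card_pattern (hk : ringChar k ≠ 2) (hn : n ≠ 0) (hfr : Module.finrank k E = n)
    (f : J → k[X]) (T : J → Bool)
    (hf : ∀ U : Finset J, U.Nonempty → ∀ (c : k) (h : k[X]), ∏ j ∈ U, f j ≠ C c * h ^ 2) :
    |(n : ℝ) * ((PR k n).filter fun D => sg f D = T).card -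
        (Fintype.card E : ℝ) / 2 ^ Fintype.card J| ≤
      (Fintype.card k : ℝ) ^ (n / 2 + 1) + ((∑ j, (f j).natDegree : ℕ) : ℝ) +
        5 * ((∑ j, (f j).natDegree : ℕ) : ℝ) * Real.sqrt (Fintype.card E) := by
  have hf0 : ∀ j, f j ≠ 0 := by
    intro j h
    exact hf {j} ⟨j, mem_singleton_self j⟩ 0 0 (by rw [prod_singleton, h]; simp)
  have h1 := count_PR (E := E) hn hfr (fun D => sg f D = T)
  have h2 : (n : ℝ) * ((PR k n).filter fun D => sg f D = T).card = ∑ x : E,
      if (minpoly k x).natDegree = n ∧ sg f (minpoly k x) = T then (1 : ℝ) else 0 := by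
    rw [Finset.sum_boole]
    have h1' := congrArg (Nat.cast : ℕ → ℝ) h1.symm
    rw [Nat.cast_mul] at h1'
    refine Eq.trans ?_ (h1'.trans ?_) <;> congr!
  have h3 : |(n : ℝ) * ((PR k n).filter fun D => sg f D = T).card - ∑ x : E, ind f T x| ≤
      (Fintype.card k : ℝ) ^ (n / 2 + 1) + ((∑ j, (f j).natDegree : ℕ) : ℝ) := by
    rw [h2, ← Finset.sum_sub_distrib]
    refine (Finset.abs_sum_le_sum_abs _ _).trans
      ((Finset.sum_le_sum fun x _ => ind_near hfr f T x).trans ?_)
    rw [Finset.sum_add_distrib, Finset.sum_comm, Finset.sum_boole]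
    refine add_le_add ?_ ?_
    · have h4 := card_small (F := k) (E := E)
      rw [hfr] at h4
      exact_mod_cast h4
    · push_cast
      refine Finset.sum_le_sum fun j _ => ?_
      rw [Finset.sum_boole]
      exact_mod_cast card_zeros (E := E) (hf0 j)
  have h4 := sum_ind (E := E) hk f T hf
  calc |(n : ℝ) * ((PR k n).filter fun D => sg f D = T).card -
        (Fintype.card E : ℝ) / 2 ^ Fintype.card J|
      ≤ |(n : ℝ) * ((PR k n).filter fun D => sg f D = T).card - ∑ x : E, ind f T x| +
        |∑ x : E, ind f T x - (Fintype.card E : ℝ) / 2 ^ Fintype.card J| := abs_sub_le _ _ _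
    _ ≤ _ := add_le_add h3 h4

end ext

variable {J : Type} [Fintype J]

theorem pattern_bound (hk : ringChar k ≠ 2) {n : ℕ} (hn : n ≠ 0) (f : J → k[X]) (T : J → Bool)
    (hf : ∀ U : Finset J, U.Nonempty → ∀ (c : k) (h : k[X]), ∏ j ∈ U, f j ≠ C c * h ^ 2) :
    |(n : ℝ) * ((PR k n).filter fun D => sg f D = T).card / (Fintype.card k : ℝ) ^ n -
        1 / 2 ^ Fintype.card J| ≤
      ((Fintype.card k : ℝ) + 6 * ((∑ j, (f j).natDegree : ℕ) : ℝ)) /
        (Real.sqrt (Fintype.card k)) ^ n := by
  obtain ⟨p, hp⟩ := CharP.exists k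
  haveI : Fact (Nat.Prime p) := ⟨CharP.char_is_prime k p⟩
  haveI : NeZero n := ⟨hn⟩
  let E := FiniteField.Extension k p n
  letI : Fintype E := Fintype.ofFinite E
  have : FiniteDimensional k E := Module.Finite.of_finite
  have hfr : Module.finrank k E = n := FiniteField.finrank_extension k p n
  have hcard : Fintype.card E = Fintype.card k ^ n := by
    rw [Module.card_eq_pow_finrank (K := k) (V := E), hfr]
  have h1 := card_pattern (E := E) hk hn hfr f T hf
  have hsq : Real.sqrt (Fintype.card E) = (Real.sqrt (Fintype.card k)) ^ n := by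
    rw [hcard]
    push_cast
    rw [Real.sqrt_eq_iff_mul_self_eq (by positivity) (by positivity), ← mul_pow,
      Real.mul_self_sqrt (by positivity)]
  have hq1 : (1 : ℝ) ≤ Fintype.card k := by exact_mod_cast Fintype.card_pos
  set Q : ℝ := (Real.sqrt (Fintype.card k)) ^ n with hQ
  have hs1 : (1 : ℝ) ≤ Real.sqrt (Fintype.card k) := by
    rw [show (1 : ℝ) = Real.sqrt 1 by simp]
    exact Real.sqrt_le_sqrt hq1
  have hQ1 : 1 ≤ Q := one_le_pow₀ hs1
  have hQQ : (Fintype.card k : ℝ) ^ n = Q * Q := by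
    rw [hQ, ← mul_pow, Real.mul_self_sqrt (by positivity)]
  have h3 : (Fintype.card k : ℝ) ^ (n / 2 + 1) ≤ Fintype.card k * Q := by
    rw [pow_succ, mul_comm]
    refine mul_le_mul_of_nonneg_left ?_ (by positivity)
    have h5 : (Fintype.card k : ℝ) ^ (n / 2) = (Real.sqrt (Fintype.card k)) ^ (2 * (n / 2)) := by
      rw [pow_mul, Real.sq_sqrt (by positivity)]
    rw [h5]
    exact pow_le_pow_right₀ hs1 (Nat.mul_div_le n 2)
  rw [hsq, hcard] at h1
  push_cast at h1
  rw [hQQ] at h1 ⊢
  set d : ℝ := ((∑ j, (f j).natDegree : ℕ) : ℝ) with hd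
  have hd' : (∑ j, ((f j).natDegree : ℝ)) = d := by rw [hd]; push_cast; rfl
  rw [hd'] at h1
  have hd0 : 0 ≤ d := by rw [hd]; positivity
  have hQ0 : 0 < Q := by linarith
  have e : (n : ℝ) * ((PR k n).filter fun D => sg f D = T).card / (Q * Q) -
      1 / 2 ^ Fintype.card J = ((n : ℝ) * ((PR k n).filter fun D => sg f D = T).card -
        (Q * Q) / 2 ^ Fintype.card J) / (Q * Q) := by
    field_simp
  rw [e, abs_div, abs_of_pos (by positivity : 0 < Q * Q), div_le_div_iff₀ (by positivity) hQ0]
  have h6 : |(n : ℝ) * ((PR k n).filter fun D => sg f D = T).card -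
      (Q * Q) / 2 ^ Fintype.card J| ≤ (Fintype.card k + 6 * d) * Q := by
    refine h1.trans ?_
    nlinarith
  calc |(n : ℝ) * ((PR k n).filter fun D => sg f D = T).card -
        (Q * Q) / 2 ^ Fintype.card J| * Q ≤ ((Fintype.card k + 6 * d) * Q) * Q :=
        mul_le_mul_of_nonneg_right h6 hQ0.le
    _ = (Fintype.card k + 6 * d) * (Q * Q) := by ring

theorem pattern_tendsto (hk : ringChar k ≠ 2) (f : J → k[X]) (T : J → Bool)
    (hf : ∀ U : Finset J, U.Nonempty → ∀ (c : k) (h : k[X]), ∏ j ∈ U, f j ≠ C c * h ^ 2) :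
    Tendsto (fun n : ℕ => (n : ℝ) * ((PR k n).filter fun D => sg f D = T).card /
      (Fintype.card k : ℝ) ^ n) atTop (𝓝 (1 / 2 ^ Fintype.card J)) := by
  rw [tendsto_iff_norm_sub_tendsto_zero]
  have hq2 : (1 : ℝ) < Fintype.card k := by exact_mod_cast Fintype.one_lt_card
  have hs1 : (1 : ℝ) < Real.sqrt (Fintype.card k) := by
    rw [show (1 : ℝ) = Real.sqrt 1 by simp]
    exact Real.sqrt_lt_sqrt (by norm_num) hq2
  have h1 : Tendsto (fun n : ℕ => ((Fintype.card k : ℝ) + 6 * ((∑ j, (f j).natDegree : ℕ) : ℝ)) /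
        (Real.sqrt (Fintype.card k)) ^ n) atTop (𝓝 0) :=
    Tendsto.const_div_atTop (tendsto_pow_atTop_atTop_of_one_lt hs1) _
  refine squeeze_zero' (Eventually.of_forall fun n => norm_nonneg _) ?_ h1
  filter_upwards [eventually_ge_atTop 1] with n hn
  rw [Real.norm_eq_abs]
  exact pattern_bound hk (by omega) f T hf

/-- the number of all primes -/
theorem all_tendsto (hk : ringChar k ≠ 2) :
    Tendsto (fun n : ℕ => (n : ℝ) * (PR k n).card / (Fintype.card k : ℝ) ^ n) atTop (𝓝 1) := by
  have h := pattern_tendsto (J := Empty) hk (fun j => j.elim) (fun j => j.elim)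
    (fun U hU => by
      obtain ⟨j, -⟩ := hU
      exact j.elim)
  have e : (1 : ℝ) / 2 ^ Fintype.card Empty = 1 := by simp
  rw [e] at h
  refine h.congr fun n => ?_
  congr 3
  rw [Finset.filter_true_of_mem]
  intro D _
  exact Subsingleton.elim _ _

theorem PR_ne (hk : ringChar k ≠ 2) : ∀ᶠ n in atTop, (PR k n).Nonempty := by
  have h := (all_tendsto hk).eventually (lt_mem_nhds (by norm_num : (0 : ℝ) < 1))
  filter_upwards [h] with n hn
  rw [nonempty_iff_ne_empty]
  intro h0
  rw [h0] at hn
  simp at hn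

/-- **The joint law of the symbols.** -/
theorem law (hk : ringChar k ≠ 2) (f : J → k[X])
    (hf : ∀ U : Finset J, U.Nonempty → ∀ (c : k) (h : k[X]), ∏ j ∈ U, f j ≠ C c * h ^ 2)
    (Q : (J → Bool) → Prop) :
    Tendsto (fun n : ℕ => (((PR k n).filter fun D => Q (sg f D)).card : ℝ) / (PR k n).card) atTop
      (𝓝 ((Nat.card {v : J → Bool // Q v} : ℝ) / 2 ^ Fintype.card J)) := by
  have h1 : ∀ n : ℕ, (((PR k n).filter fun D => Q (sg f D)).card : ℝ) =
      ∑ T ∈ univ.filter Q, (((PR k n).filter fun D => sg f D = T).card : ℝ) := by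
    intro n
    rw [Finset.card_eq_sum_card_fiberwise (f := fun D => sg f D) (t := univ.filter Q)]
    · push_cast
      refine Finset.sum_congr rfl fun T hT => ?_
      congr 2
      ext D
      simp only [mem_filter]
      constructor
      · rintro ⟨⟨a, -⟩, b⟩
        exact ⟨a, b⟩
      · rintro ⟨a, b⟩
        exact ⟨⟨a, by rw [b]; exact (mem_filter.1 hT).2⟩, b⟩
    · intro D hD
      rw [mem_coe, mem_filter] at hD
      rw [mem_coe, mem_filter]
      exact ⟨mem_univ _, hD.2⟩
  have h2 : Tendsto (fun n : ℕ => (n : ℝ) * ((PR k n).filter fun D => Q (sg f D)).card /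
      (Fintype.card k : ℝ) ^ n) atTop
      (𝓝 (∑ T ∈ univ.filter Q, 1 / 2 ^ Fintype.card J)) := by
    have h3 := tendsto_finsetSum (univ.filter Q) fun T _ => pattern_tendsto hk f T hf
    refine h3.congr fun n => ?_
    rw [h1, Finset.mul_sum, Finset.sum_div]
  rw [sum_const, nsmul_eq_mul] at h2
  have h3 := h2.div (all_tendsto (k := k) hk) one_ne_zero
  rw [div_one] at h3
  have e : (Nat.card {v : J → Bool // Q v} : ℝ) / 2 ^ Fintype.card J =
      ((univ.filter Q).card : ℝ) * (1 / 2 ^ Fintype.card J) := by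
    rw [Nat.card_eq_fintype_card, Fintype.card_subtype]
    ring
  rw [e]
  refine h3.congr' ?_
  filter_upwards [eventually_ge_atTop 1] with n hn
  have hn0 : (n : ℝ) ≠ 0 := by
    have : (0 : ℝ) < n := by exact_mod_cast hn
    exact this.ne'
  have hq : (Fintype.card k : ℝ) ^ n ≠ 0 := by
    have : (0 : ℝ) < Fintype.card k := by exact_mod_cast Fintype.card_pos
    positivity
  show (n : ℝ) * _ / _ / ((n : ℝ) * _ / _) = _
  rw [div_div_div_cancel_right₀ hq, mul_div_mul_left _ _ hn0]

end

end Pool.Agent.U695.FF
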